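import Mathlib
import Pool.Agent.H749Z.Loop.DefsAbs
import Pool.Agent.H749Z.Loop.MltMain

set_option autoImplicit false

namespace Pool.Agent.Results.MP_829a29_al.AMltNilpotent

open H749Z.LP

universe u

/-- Every loop `Q` (finite or infinite) whose multiplication group is nilpotent, of class `c`, is
`k`-supernilpotent for `k = 2 ^ (c + 1) * c! - 1`. -/
theorem result (Q : Type u) [Loop Q] [Group.IsNilpotent (Mlt Q)] :
    AbsSupernilpotent Q (2 ^ (Group.nilpotencyClass (Mlt Q) + 1) *
      (Group.nilpotencyClass (Mlt Q)).factorial - 1) :=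
  absSupernilpotent_of_nilpotent Q

end Pool.Agent.Results.MP_829a29_al.AMltNilpotent
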